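import Mathlib

/-!
# MP_ca5fbf_co: the inequality `A(n) ≥ B(n)` fails for infinitely many `n`

If `B(n) ≤ A(n)` held for all large `n`, then `r₃(m) ≤ r₃(a) + r₃(b)` for some `a + b ≤ (3m+5)/4`, for
all large `m`, and iterating this gives `r₃(m) ≤ C m^(3/4)`, which contradicts Behrend's lower bound.
-/

set_option autoImplicit false

namespace Pool.Agent.Results.MP_ca5fbf_co.ColumnFormulas

/-- `r3 m`: the largest size of a subset of `{1, …, m}` containing no three-term arithmetic progression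
`a, a + d, a + 2d` with `d ≥ 1`. -/
noncomputable def r3 (m : ℕ) : ℕ :=
  sSup {k : ℕ | ∃ S : Finset ℕ, S ⊆ Finset.Icc 1 m ∧
    (∀ a d : ℕ, 1 ≤ d → ¬ (a ∈ S ∧ a + d ∈ S ∧ a + 2 * d ∈ S)) ∧ S.card = k}

/-- `A(n) = n - r₃(⌈n/3⌉)`. -/
noncomputable def A (n : ℕ) : ℤ := (n : ℤ) - (r3 ⌈(n : ℚ) / 3⌉₊ : ℤ)

/-- `B(n) = n - max_{k + l = ⌈n/2⌉} (r₃(⌈k/2⌉) + r₃(⌈l/2⌉))`. -/
noncomputable def B (n : ℕ) : ℤ :=
  (n : ℤ) - (sSup {x : ℕ | ∃ k l : ℕ, k + l = ⌈(n : ℚ) / 2⌉₊ ∧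
    x = r3 ⌈(k : ℚ) / 2⌉₊ + r3 ⌈(l : ℚ) / 2⌉₊} : ℕ)

theorem r3_bdd (m : ℕ) : BddAbove {k : ℕ | ∃ S : Finset ℕ, S ⊆ Finset.Icc 1 m ∧
    (∀ a d : ℕ, 1 ≤ d → ¬ (a ∈ S ∧ a + d ∈ S ∧ a + 2 * d ∈ S)) ∧ S.card = k} := by
  refine ⟨m, ?_⟩
  rintro k ⟨S, hS, _, rfl⟩
  simpa using Finset.card_le_card hS

theorem r3_le (m : ℕ) : r3 m ≤ m := by
  apply csSup_le
  · exact ⟨0, ∅, by simp, by simp, rfl⟩
  · rintro k ⟨S, hS, _, rfl⟩
    simpa using Finset.card_le_card hS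

theorem roth_le_r3 (m : ℕ) : rothNumberNat m ≤ r3 m := by
  obtain ⟨t, ht, hc, hf⟩ := rothNumberNat_spec m
  apply le_csSup (r3_bdd m)
  refine ⟨t.image (fun x => x + 1), ?_, ?_, ?_⟩
  · intro x hx
    obtain ⟨y, hy, rfl⟩ := Finset.mem_image.1 hx
    have := Finset.mem_range.1 (ht hy)
    rw [Finset.mem_Icc]; omega
  · rintro a d hd ⟨h1, h2, h3⟩
    obtain ⟨x, hx, hx'⟩ := Finset.mem_image.1 h1
    obtain ⟨y, hy, hy'⟩ := Finset.mem_image.1 h2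
    obtain ⟨z, hz, hz'⟩ := Finset.mem_image.1 h3
    have := hf (Finset.mem_coe.2 hx) (Finset.mem_coe.2 hy) (Finset.mem_coe.2 hz) (by omega)
    omega
  · rw [Finset.card_image_of_injective _ (by intro x y h; simpa using h), hc]

/-- The splitting inequality that `B(3m) ≤ A(3m)` would give. -/
theorem split_of_le (m : ℕ) (h : B (3 * m) ≤ A (3 * m)) :
    ∃ a b : ℕ, 4 * (a + b) ≤ 3 * m + 5 ∧ r3 m ≤ r3 a + r3 b := by
  unfold A B at h
  have h3 : ⌈((3 * m : ℕ) : ℚ) / 3⌉₊ = m := by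
    have : ((3 * m : ℕ) : ℚ) / 3 = (m : ℚ) := by push_cast; ring
    rw [this, Nat.ceil_natCast]
  rw [h3] at h
  set T : Set ℕ := {x : ℕ | ∃ k l : ℕ, k + l = ⌈((3 * m : ℕ) : ℚ) / 2⌉₊ ∧
    x = r3 ⌈(k : ℚ) / 2⌉₊ + r3 ⌈(l : ℚ) / 2⌉₊} with hT
  have hne : T.Nonempty := ⟨_, 0, ⌈((3 * m : ℕ) : ℚ) / 2⌉₊, by simp, rfl⟩
  have hbdd : BddAbove T := by
    refine ⟨2 * ⌈((3 * m : ℕ) : ℚ) / 2⌉₊, ?_⟩
    rintro x ⟨k, l, hkl, rfl⟩
    have h1 : ⌈(k : ℚ) / 2⌉₊ ≤ k := by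
      apply Nat.ceil_le.2
      have : (0 : ℚ) ≤ k := Nat.cast_nonneg k
      linarith
    have h2 : ⌈(l : ℚ) / 2⌉₊ ≤ l := by
      apply Nat.ceil_le.2
      have : (0 : ℚ) ≤ l := Nat.cast_nonneg l
      linarith
    have h4 := r3_le ⌈(k : ℚ) / 2⌉₊
    have h5 := r3_le ⌈(l : ℚ) / 2⌉₊
    omega
  obtain ⟨k, l, hkl, hx⟩ := Nat.sSup_mem hne hbdd
  refine ⟨⌈(k : ℚ) / 2⌉₊, ⌈(l : ℚ) / 2⌉₊, ?_, ?_⟩
  · have h1 : (⌈(k : ℚ) / 2⌉₊ : ℚ) < (k : ℚ) / 2 + 1 := Nat.ceil_lt_add_one (by positivity)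
    have h2 : (⌈(l : ℚ) / 2⌉₊ : ℚ) < (l : ℚ) / 2 + 1 := Nat.ceil_lt_add_one (by positivity)
    have h4 : (⌈((3 * m : ℕ) : ℚ) / 2⌉₊ : ℚ) < ((3 * m : ℕ) : ℚ) / 2 + 1 :=
      Nat.ceil_lt_add_one (by positivity)
    have h1' : 2 * ⌈(k : ℚ) / 2⌉₊ < k + 2 := by
      have : (2 : ℚ) * ⌈(k : ℚ) / 2⌉₊ < k + 2 := by linarith
      exact_mod_cast this
    have h2' : 2 * ⌈(l : ℚ) / 2⌉₊ < l + 2 := by
      have : (2 : ℚ) * ⌈(l : ℚ) / 2⌉₊ < l + 2 := by linarith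
      exact_mod_cast this
    have h4' : 2 * ⌈((3 * m : ℕ) : ℚ) / 2⌉₊ < 3 * m + 2 := by
      have : (2 : ℚ) * ⌈((3 * m : ℕ) : ℚ) / 2⌉₊ < ((3 * m : ℕ) : ℚ) + 2 := by linarith
      exact_mod_cast this
    omega
  · have : ((r3 m : ℕ) : ℤ) ≤ ((r3 ⌈(k : ℚ) / 2⌉₊ + r3 ⌈(l : ℚ) / 2⌉₊ : ℕ) : ℤ) := by
      rw [← hx]
      linarith
    exact_mod_cast this

/-- If the splitting inequality holds from `M` on, then `r₃(m) ≤ C m^(3/4)`. -/
theorem power_bound (M : ℕ) (hM : 100 ≤ M)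
    (h : ∀ m, M ≤ m → ∃ a b : ℕ, 4 * (a + b) ≤ 3 * m + 5 ∧ r3 m ≤ r3 a + r3 b) (m : ℕ) :
    (r3 m : ℝ) ≤ (M : ℝ) * (m : ℝ) ^ (3 / 4 : ℝ) := by
  induction m using Nat.strong_induction_on with
  | _ m ih =>
    rcases Nat.lt_or_ge m M with hm | hm
    · rcases Nat.eq_zero_or_pos m with rfl | hpos
      · have : r3 0 = 0 := Nat.le_zero.1 (r3_le 0)
        rw [this]
        simp
      · have h1 : (1 : ℝ) ≤ (m : ℝ) ^ (3 / 4 : ℝ) := by
          apply Real.one_le_rpow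
          · exact_mod_cast hpos
          · norm_num
        have h2 : (r3 m : ℝ) ≤ M := by exact_mod_cast (r3_le m).trans hm.le
        have h3 : (0 : ℝ) ≤ M := by positivity
        nlinarith
    · obtain ⟨a, b, hab, hr⟩ := h m hm
      have ha : a < m := by omega
      have hb : b < m := by omega
      have iha := ih a ha
      have ihb := ih b hb
      have hconc : (a : ℝ) ^ (3 / 4 : ℝ) + (b : ℝ) ^ (3 / 4 : ℝ) ≤
          2 * (((a : ℝ) + b) / 2) ^ (3 / 4 : ℝ) := by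
        have hc := (Real.concaveOn_rpow (p := (3 / 4 : ℝ)) (by norm_num) (by norm_num)).2
          (Set.mem_Ici.2 (Nat.cast_nonneg a : (0 : ℝ) ≤ a))
          (Set.mem_Ici.2 (Nat.cast_nonneg b : (0 : ℝ) ≤ b))
          (by norm_num : (0 : ℝ) ≤ 1 / 2) (by norm_num : (0 : ℝ) ≤ 1 / 2) (by norm_num)
        simp only [smul_eq_mul] at hc
        have he : (1 / 2 : ℝ) * a + 1 / 2 * b = ((a : ℝ) + b) / 2 := by ring
        rw [he] at hc
        linarith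
      have hm0 : (0 : ℝ) < m := by
        have : 0 < m := by omega
        exact_mod_cast this
      have hle : ((a : ℝ) + b) / 2 ≤ (2 : ℝ) ^ (-(4 / 3) : ℝ) * m := by
        have h1 : (4 : ℝ) * (a + b) ≤ 3 * m + 5 := by exact_mod_cast hab
        have h29 : (100 : ℝ) ≤ m := by exact_mod_cast hM.trans hm
        have h2 : (396 / 1000 : ℝ) ≤ (2 : ℝ) ^ (-(4 / 3) : ℝ) := by
          rw [Real.rpow_neg (by norm_num)]
          rw [le_inv_comm₀ (by norm_num) (by positivity)]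
          have h4 : ((2 : ℝ) ^ (4 / 3 : ℝ)) ^ (3 : ℕ) = 16 := by
            rw [← Real.rpow_natCast, ← Real.rpow_mul (by norm_num)]
            norm_num
          have hpos : (0 : ℝ) ≤ (2 : ℝ) ^ (4 / 3 : ℝ) := by positivity
          by_contra hcon
          push Not at hcon
          have : ((396 / 1000 : ℝ)⁻¹) ^ 3 < ((2 : ℝ) ^ (4 / 3 : ℝ)) ^ 3 :=
            pow_lt_pow_left₀ hcon (by norm_num) (by norm_num)
          rw [h4] at this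
          norm_num at this
        have h5 : (396 / 1000 : ℝ) * m ≤ (2 : ℝ) ^ (-(4 / 3) : ℝ) * m := mul_le_mul_of_nonneg_right h2 hm0.le
        linarith
      have hpow : (((a : ℝ) + b) / 2) ^ (3 / 4 : ℝ) ≤ (1 / 2) * (m : ℝ) ^ (3 / 4 : ℝ) := by
        calc (((a : ℝ) + b) / 2) ^ (3 / 4 : ℝ)
            ≤ ((2 : ℝ) ^ (-(4 / 3) : ℝ) * m) ^ (3 / 4 : ℝ) :=
              Real.rpow_le_rpow (by positivity) hle (by norm_num)
          _ = (1 / 2) * (m : ℝ) ^ (3 / 4 : ℝ) := by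
              rw [Real.mul_rpow (by positivity) hm0.le, ← Real.rpow_mul (by norm_num)]
              norm_num
      have hr' : (r3 m : ℝ) ≤ r3 a + r3 b := by exact_mod_cast hr
      have hMpos : (0 : ℝ) ≤ M := by positivity
      calc (r3 m : ℝ) ≤ r3 a + r3 b := hr'
        _ ≤ M * (a : ℝ) ^ (3 / 4 : ℝ) + M * (b : ℝ) ^ (3 / 4 : ℝ) := by linarith
        _ = M * ((a : ℝ) ^ (3 / 4 : ℝ) + (b : ℝ) ^ (3 / 4 : ℝ)) := by ring
        _ ≤ M * (2 * ((1 / 2) * (m : ℝ) ^ (3 / 4 : ℝ))) := by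
            apply mul_le_mul_of_nonneg_left _ hMpos
            linarith
        _ = M * (m : ℝ) ^ (3 / 4 : ℝ) := by ring

/-- Behrend's bound contradicts `r₃(m) ≤ C m^(3/4)`. -/
theorem no_power_bound (C : ℝ) (hC : 0 < C) : ¬ ∀ m : ℕ, (r3 m : ℝ) ≤ C * (m : ℝ) ^ (3 / 4 : ℝ) := by
  intro h
  -- choose a large m
  obtain ⟨m, hm⟩ := exists_nat_gt (Real.exp ((16 + 4 * (1 + |Real.log C|)) ^ 2))
  have hm0 : (0 : ℝ) < m := lt_trans (Real.exp_pos _) hm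
  set L : ℝ := Real.log m with hL
  have hLbig : (16 + 4 * (1 + |Real.log C|)) ^ 2 < L := by
    rw [hL, Real.lt_log_iff_exp_lt hm0]
    exact hm
  have h1 : (m : ℝ) * Real.exp (-4 * √(Real.log m)) ≤ rothNumberNat m := Behrend.roth_lower_bound
  have h2 : (rothNumberNat m : ℝ) ≤ r3 m := by exact_mod_cast roth_le_r3 m
  have h3 := (h1.trans h2).trans (h m)
  -- take logarithms
  have h4 := Real.log_le_log (by positivity) h3
  rw [Real.log_mul hm0.ne' (Real.exp_pos _).ne', Real.log_exp, Real.log_mul hC.ne'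
    (Real.rpow_pos_of_pos hm0 _).ne', Real.log_rpow hm0, ← hL] at h4
  set s : ℝ := √L with hs
  have hL0 : 0 ≤ L := le_trans (sq_nonneg _) hLbig.le
  have hss : s ^ 2 = L := Real.sq_sqrt hL0
  have hs0 : 0 ≤ s := Real.sqrt_nonneg _
  have hsbig : 16 + 4 * (1 + |Real.log C|) < s := by
    have h0 : (0 : ℝ) ≤ 16 + 4 * (1 + |Real.log C|) := by positivity
    rw [hs]
    exact Real.lt_sqrt_of_sq_lt hLbig
  have habs : Real.log C ≤ |Real.log C| := le_abs_self _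
  have habs0 : 0 ≤ |Real.log C| := abs_nonneg _
  nlinarith

/-- `A(n) < B(n)` for infinitely many positive integers `n`. -/
theorem result : ∀ N : ℕ, ∃ n : ℕ, N ≤ n ∧ 0 < n ∧ A n < B n := by
  intro N
  by_contra hcon
  push Not at hcon
  have h : ∀ m, N + 100 ≤ m → ∃ a b : ℕ, 4 * (a + b) ≤ 3 * m + 5 ∧ r3 m ≤ r3 a + r3 b := by
    intro m hm
    exact split_of_le m (hcon (3 * m) (by omega) (by omega))
  have hb := power_bound (N + 100) (by omega) h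
  exact no_power_bound ((N + 100 : ℕ) : ℝ) (by positivity) hb

end Pool.Agent.Results.MP_ca5fbf_co.ColumnFormulas
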